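import Pool.Agent.H.MP_8916ec_co.A

namespace Pool.Agent.Results.MP_8916ec_co.Rank

open Finset Pool.Agent.H.MP_8916ec_co

variable {Y : Type} {l r : ℕ}

/-- The map `c ↦ min_j (g_j + c_j)`. -/
noncomputable def psi (g : Fin (l + 1) → Y → ℝ) (c : Fin (l + 1) → ℝ) : Y → ℝ :=
  fun x => univ.inf' univ_nonempty (fun j => g j x + c j)

/-- The finite-valued elements of the semimodule generated by the `g_j`. -/
def gen (g : Fin (l + 1) → Y → ℝ) : Set (Y → ℝ) :=
  {f | ∃ (J : Finset (Fin (l + 1))) (hJ : J.Nonempty) (a : Fin (l + 1) → ℝ),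
    ∀ x, f x = J.inf' hJ (fun j => g j x + a j)}

/-- Dependence with real coefficients. -/
def Dep (f : Fin r → Y → ℝ) : Prop :=
  ∃ c : Fin r → ℝ, ∀ x, ∃ i j, i ≠ j ∧ f i x + c i = f j x + c j ∧ ∀ k, f i x + c i ≤ f k x + c k

/-- Dependence with coefficients in the tropical semifield, not all infinite. -/
def DepT (f : Fin r → Y → ℝ) : Prop :=
  ∃ I : Finset (Fin r), I.Nonempty ∧ ∃ c : Fin r → ℝ, ∀ x, ∃ i ∈ I, ∃ j ∈ I, i ≠ j ∧
    f i x + c i = f j x + c j ∧ ∀ k ∈ I, f i x + c i ≤ f k x + c k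

noncomputable def rank (M : Set (Y → ℝ)) : ℕ∞ :=
  ⨆ (r : ℕ) (f : Fin r → Y → ℝ) (_ : (∀ i, f i ∈ M) ∧ Function.Injective f ∧ ¬ Dep f), (r : ℕ∞)

noncomputable def rankT (M : Set (Y → ℝ)) : ℕ∞ :=
  ⨆ (r : ℕ) (f : Fin r → Y → ℝ) (_ : (∀ i, f i ∈ M) ∧ Function.Injective f ∧ ¬ DepT f), (r : ℕ∞)

/-- Largest dimension of a nonempty convex subset. -/
noncomputable def dimSet (S : Set (Fin (l + 1) → ℝ)) : ℕ∞ :=
  ⨆ (C : Set (Fin (l + 1) → ℝ)) (_ : C ⊆ S ∧ C.Nonempty ∧ Convex ℝ C),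
    (Module.finrank ℝ (vectorSpan ℝ C) : ℕ∞)

noncomputable def dimM (g : Fin (l + 1) → Y → ℝ) : ℕ∞ :=
  ⨆ c, ((l + 1 : ℕ) - dimSet {c' | psi g c' = psi g c})

lemma mem_gen (g : Fin (l + 1) → Y → ℝ) (j : Fin (l + 1)) (a : ℝ) :
    (fun x => g j x + a) ∈ gen g :=
  ⟨{j}, singleton_nonempty j, fun _ => a, fun x => by simp⟩

lemma main (g : Fin (l + 1) → Y → ℝ) : rankT (gen g) = dimM g := by
  apply le_antisymm
  · refine iSup_le fun r => iSup_le fun f => iSup_le fun h => ?_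
    obtain ⟨c, hc⟩ := cert f h.2.2
    obtain ⟨b, x, v, h1, h2⟩ := lower g f h.1 c hc
    refine le_iSup_of_le b ?_
    have h3 : r ≤ l + 1 := by
      have := thin g x v h1 {b} (by simpa using h2) (by simp) (convex_singleton b)
      simp only [Fintype.card_fin] at this
      omega
    have h4 : dimSet {c' | psi g c' = psi g b} ≤ ((l + 1 - r : ℕ) : ℕ∞) := by
      refine iSup_le fun C => iSup_le fun hC => ?_
      have := thin g x v h1 C (fun p hp i => (congrFun (hC.1 hp) (x i)).trans (h2 i)) hC.2.1 hC.2.2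
      simp only [Fintype.card_fin] at this
      exact_mod_cast (by omega : Module.finrank ℝ (vectorSpan ℝ C) ≤ l + 1 - r)
    refine le_trans ?_ (tsub_le_tsub_left h4 _)
    exact_mod_cast (by omega : r ≤ l + 1 - (l + 1 - r))
  · refine iSup_le fun b => ?_
    obtain ⟨r, m, C, h1, h2, h3, h4, h5⟩ := upper g b
    have h6 : (r : ℕ∞) ≤ rankT (gen g) :=
      le_iSup_of_le r (le_iSup_of_le (fun i => g (m i)) (le_iSup_of_le
        ⟨fun i => by simpa using mem_gen g (m i) 0, inj _ _ h1, indep _ _ h1⟩ le_rfl))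
    have h7 : (Module.finrank ℝ (vectorSpan ℝ C) : ℕ∞) ≤ dimSet {c' | psi g c' = psi g b} :=
      le_iSup_of_le C (le_iSup_of_le ⟨fun c hc => funext (h2 c hc), h3, h4⟩ le_rfl)
    rw [tsub_le_iff_right]
    refine le_trans ?_ (add_le_add h6 h7)
    simp only [Fintype.card_fin] at h5
    exact_mod_cast h5

lemma dep_iff [Nonempty Y] (f : Fin r → Y → ℝ) (K : ℝ) (hK : ∀ i x, |f i x| ≤ K) :
    Dep f ↔ DepT f := by
  classical
  constructor
  · rintro ⟨c, hc⟩
    obtain ⟨i, -⟩ := hc (Classical.arbitrary Y)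
    refine ⟨univ, ⟨i, mem_univ i⟩, c, fun x => ?_⟩
    obtain ⟨i, j, h1, h2, h3⟩ := hc x
    exact ⟨i, mem_univ i, j, mem_univ j, h1, h2, fun k _ => h3 k⟩
  · rintro ⟨I, ⟨i0, h0⟩, c, hc⟩
    refine ⟨fun k => if k ∈ I then c k else c i0 + 2 * K, fun x => ?_⟩
    obtain ⟨i, hi, j, hj, h1, h2, h3⟩ := hc x
    refine ⟨i, j, h1, by simpa [hi, hj] using h2, fun k => ?_⟩
    by_cases hk : k ∈ I
    · simpa [hi, hk] using h3 k hk
    · simp only [hi, hk, if_true, if_false]
      have := h3 i0 h0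
      have := abs_le.1 (hK i0 x)
      have := abs_le.1 (hK k x)
      linarith

theorem result :
    (∀ (d l : ℕ) (Y : Set (EuclideanSpace ℝ (Fin d))), IsCompact Y → Y.Nonempty →
      ∀ g : Fin (l + 1) → Y → ℝ, (∀ j, Continuous (g j)) → rank (gen g) = dimM g) ∧
    (∀ (d l : ℕ) (Y : Set (EuclideanSpace ℝ (Fin d))) (g : Fin (l + 1) → Y → ℝ),
      rankT (gen g) = dimM g) ∧
    (rank (gen (![fun x => -x, fun _ => 0] : Fin 2 → ℝ → ℝ)) = ⊤ ∧
      dimM (![fun x => -x, fun _ => 0] : Fin 2 → ℝ → ℝ) ≤ 2) := by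
  refine ⟨fun d l Y hY hn g hg => ?_, fun d l Y g => main g, ?_, iSup_le fun c => tsub_le_self⟩
  · haveI := hn.to_subtype
    haveI := isCompact_iff_compactSpace.1 hY
    rw [← main]
    refine iSup_congr fun r => iSup_congr fun f => iSup_congr_Prop ?_ fun _ => rfl
    refine and_congr_right fun hf => and_congr_right fun _ => not_congr ?_
    have : ∀ i, ∃ K, ∀ x, |f i x| ≤ K := fun i => by
      obtain ⟨J, hJ, a, ha⟩ := hf i
      have hc : Continuous (f i) := by
        rw [funext ha]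
        exact Continuous.finset_inf'_apply hJ fun j _ => (hg j).add continuous_const
      obtain ⟨K, hK⟩ := (isCompact_range hc.abs).bddAbove
      exact ⟨K, fun x => hK ⟨x, rfl⟩⟩
    choose K hK using this
    obtain ⟨L, hL⟩ := (Set.finite_range K).bddAbove
    exact dep_iff f L fun i x => (hK i x).trans (hL ⟨i, rfl⟩)
  · refine ENat.eq_top_iff_forall_ge.2 fun n => ?_
    refine le_trans (Nat.cast_le.2 n.le_succ) (le_iSup_of_le (n + 1) (le_iSup_of_le
      (Fin.cons (fun x => -x) (fun (i : Fin n) _ => (i : ℝ))) (le_iSup_of_le ⟨?_, ?_, ?_⟩ le_rfl)))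
    · intro i
      refine Fin.cases ?_ (fun i => ?_) i
      · simpa using mem_gen (![fun x => -x, fun _ => 0] : Fin 2 → ℝ → ℝ) 0 0
      · simpa using mem_gen (![fun x => -x, fun _ => 0] : Fin 2 → ℝ → ℝ) 1 i
    · rw [Fin.cons_injective_iff]
      refine ⟨?_, fun i k h => Fin.ext (Nat.cast_injective (R := ℝ) (congrFun h 0))⟩
      rintro ⟨i, hi⟩
      have h1 := congrFun hi 0
      have h2 := congrFun hi 1
      simp only at h1 h2
      linarith
    · rintro ⟨c, hc⟩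
      obtain ⟨L, hL⟩ := (Set.finite_range fun i : Fin n => c 0 - c i.succ - i).bddAbove
      obtain ⟨i, j, h1, h2, h3⟩ := hc (L + 1)
      have h4 : ∀ k : Fin (n + 1), k ≠ 0 → -(L + 1) + c 0 <
          (Fin.cons (fun x => -x) (fun (i : Fin n) _ => (i : ℝ)) : Fin (n + 1) → ℝ → ℝ) k (L + 1) +
            c k := by
        intro k hk
        obtain ⟨k, rfl⟩ := Fin.exists_succ_eq.2 hk
        have := hL ⟨k, rfl⟩
        simp only [Fin.cons_succ] at this ⊢
        linarith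
      have h5 := h3 0
      simp only [Fin.cons_zero] at h5
      by_cases hi : i = 0
      · have := h4 j (by rintro rfl; exact h1 hi)
        linarith
      · have := h4 i hi
        linarith

end Pool.Agent.Results.MP_8916ec_co.Rank
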